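import Pool.Agent.Lib.MP9d5bb5.TwoEndG

/-!
# Discrete subgroups of the `L¹` full group of an ergodic transformation are amenable

`T` is an ergodic measure preserving bijection of `[0,1)`, so that its orbit relation is the hyperfinite ergodic
relation `R`. A subgroup of the full group `[R] = [T]` that is discrete in the uniform metric and whose elements
have integrable displacement along the orbits of `T` (or, more generally, move for almost every `x` only finitely
many points of the orbit across the cut in front of `x`) satisfies the Følner condition.
-/

namespace Pool.Agent.Results.MP_9d5bb5_an.IntegrableDisplacement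

open MeasureTheory Pool.Agent.MP9d5bb5

theorem result (T : Equiv.Perm ℝ)
    (hT : Ergodic (T : ℝ → ℝ) (volume.restrict (Set.Ico (0:ℝ) 1)))
    (H : Subgroup (Equiv.Perm ℝ)) (hH : InFullOf T H) (hd : UniformlyDiscrete H)
    (hc : ∀ h ∈ H, FiniteCrossing T h ∨ IntegrableDisplacement T h) : FolnerCondition H :=
  TwoEnd.folner_of_finiteCrossing hT hH hd fun h hh =>
    (hc h hh).elim id (TwoEnd.finiteCrossing_of_integrable hT)

end Pool.Agent.Results.MP_9d5bb5_an.IntegrableDisplacement
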