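import Pool.Agent.Lib.MP9d5bb5.Gap

/-!
# A gap for discrete subgroups of the hyperfinite full group

An ergodic subgroup of the full group `[R]` that is discrete in the uniform metric and CSA (for
instance free) moves at least one third of the space by every nontrivial element.
-/

namespace Pool.Agent.Results.MP_9d5bb5_an.ThirdGap

open Pool.Agent.MP9d5bb5

theorem result (H : Subgroup (Equiv.Perm ℝ)) (hF : InFull H) (hd : UniformlyDiscrete H)
    (hc : IsCSA H) (he : IsErgodic H) : MovesAtLeast H (1 / 3) :=
  gap hF he hc hd

end Pool.Agent.Results.MP_9d5bb5_an.ThirdGap
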