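import Pool.Agent.Lib.MP9d5bb5.Compact

/-!
# Discrete subgroups of the hyperfinite full group and the weak topology

Let `R` be the relation `x - y is a dyadic rational` on `[0,1)` and let `H` be a subgroup of the
full group `[R]` that is discrete in the uniform metric but not discrete in the weak topology. If
`H` is uniformly prime (for instance nonabelian CSA, for instance free nonabelian), then `H` is
amenable.

The proof: commutators of elements close to the identity make the family of asymptotically fixed
sets closed under unions; discreteness bounds their measure, and off the largest such set `H` acts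
essentially freely, so that hyperfiniteness gives the Følner condition. No ergodicity is needed.
-/

namespace Pool.Agent.Results.MP_9d5bb5_an.WeaklyDiscrete

open Pool.Agent.MP9d5bb5

theorem result (H : Subgroup (Equiv.Perm ℝ)) (hF : InFull H) (hd : UniformlyDiscrete H)
    (hp : IsUniformlyPrime H ∨ (IsCSA H ∧ ∃ a ∈ H, ∃ b ∈ H, ¬ Commute a b))
    (hw : WeaklyNondiscrete H) : FolnerCondition H := by
  rcases hp with hu | ⟨hc, hna⟩
  · exact folner_of_weakly hF hd hu hw
  · exact folner_of_weakly hF hd (hc.isUniformlyPrime hna) hw

end Pool.Agent.Results.MP_9d5bb5_an.WeaklyDiscrete
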